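import Pool.Agent.R623.C.Main
import Pool.Agent.R623.C.Dnc

/-!
# Degrees which are DNC relative to the halting problem need not solve computable instances of
Hindman's theorem for sums of exactly two elements

There is one computable colouring `c : ℕ → Bool` such that almost every sequence `X` (for the
coin-tossing measure) computes no solution of `c`; but almost every sequence computes a function
which is diagonally noncomputable relative to the halting problem.
-/

set_option autoImplicit false

namespace Pool.Agent.Results.MP_bdf372_lc.RandomNoSolution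

open Pool.Agent.R623.HTR
open Pool.Agent.Results.MP_743c94_lc.Full (computableFrom_of_turing)

/-- Codes of the partial functions which are computable with the help of an oracle. -/
inductive OCode : Type
  | zero : OCode
  | succ : OCode
  | left : OCode
  | right : OCode
  | oracle : OCode
  | pair : OCode → OCode → OCode
  | comp : OCode → OCode → OCode
  | prec : OCode → OCode → OCode
  | rfind : OCode → OCode

/-- The partial function with a given code, relative to the oracle `g`. -/
def OCode.eval (g : ℕ →. ℕ) : OCode → (ℕ →. ℕ)
  | .zero => fun _ => Part.some 0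
  | .succ => fun n => Part.some (n + 1)
  | .left => fun n => Part.some (Nat.unpair n).1
  | .right => fun n => Part.some (Nat.unpair n).2
  | .oracle => g
  | .pair a b => fun n => Nat.pair <$> a.eval g n <*> b.eval g n
  | .comp a b => fun n => b.eval g n >>= a.eval g
  | .prec a b => fun p =>
      let (x, n) := Nat.unpair p
      n.rec (a.eval g x) fun y IH => do
        let i ← IH
        b.eval g (Nat.pair x (Nat.pair y i))
  | .rfind a => fun x => Nat.rfind fun n => (fun m => m = 0) <$> a.eval g (Nat.pair x n)

/-- The standard enumeration of the codes. -/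
def OCode.ofNat : ℕ → OCode
  | 0 => .zero
  | 1 => .succ
  | 2 => .left
  | 3 => .right
  | 4 => .oracle
  | n + 5 =>
    have h : n / 4 < n + 5 := by omega
    have _h1 : (n / 4).unpair.1 < n + 5 := lt_of_le_of_lt (Nat.unpair_left_le _) h
    have _h2 : (n / 4).unpair.2 < n + 5 := lt_of_le_of_lt (Nat.unpair_right_le _) h
    if n % 4 = 0 then .pair (OCode.ofNat (n / 4).unpair.1) (OCode.ofNat (n / 4).unpair.2)
    else if n % 4 = 1 then .comp (OCode.ofNat (n / 4).unpair.1) (OCode.ofNat (n / 4).unpair.2)
    else if n % 4 = 2 then .prec (OCode.ofNat (n / 4).unpair.1) (OCode.ofNat (n / 4).unpair.2)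
    else .rfind (OCode.ofNat (n / 4))

/-- The characteristic function of a set of natural numbers. -/
noncomputable def char (A : Set ℕ) : ℕ →. ℕ := by
  classical exact fun n => Part.some (if n ∈ A then 1 else 0)

/-- The halting problem: the set of all `e` such that the `e`-th partial computable function is
defined at `e`. -/
def Halting : Set ℕ :=
  {e | (Nat.Partrec.Code.eval (Denumerable.ofNat Nat.Partrec.Code e) e).Dom}

/-- `f` is diagonally noncomputable relative to the halting problem: `f e` is not the value at `e`
of the `e`-th partial function computable relative to the halting problem. -/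
def IsDNC (f : ℕ → ℕ) : Prop := ∀ e, f e ∉ (OCode.ofNat e).eval (char Halting) e

/-- The sequence `X` computes a function which is diagonally noncomputable relative to the halting
problem, but no solution of the instance `c` of Hindman's theorem for sums of exactly two
elements. -/
def Separates (c : ℕ → Bool) (X : Set ℕ) : Prop :=
  (∃ f : ℕ → ℕ, TuringReducible (fun n => Part.some (f n)) (char X) ∧ IsDNC f) ∧
    ∀ H : Set ℕ, H.Infinite → TuringReducible (char H) (char X) →
      ¬ ∃ i : Bool, ∀ x ∈ H, ∀ y ∈ H, x ≠ y → c (x + y) = i

/-- the characteristic function -/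
noncomputable def cf (A : Set ℕ) (n : ℕ) : Bool := by
  classical exact decide (n ∈ A)

theorem char_eq (A : Set ℕ) : char A = fun n => Part.some (cf A n).toNat := by
  classical
  funext n
  unfold char cf
  by_cases h : n ∈ A
  · rw [if_pos h]; simp [h]
  · rw [if_neg h]; simp [h]

theorem cf_set (X : ℕ → Bool) : cf {n | X n = true} = X := by
  classical
  funext n
  unfold cf
  cases h : X n <;> simp [h]

/-- Every code occurs in the enumeration. -/
theorem OCode.ofNat_surjective : Function.Surjective OCode.ofNat := by
  intro c
  induction c with
  | zero => exact ⟨0, by rw [OCode.ofNat]⟩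
  | succ => exact ⟨1, by rw [OCode.ofNat]⟩
  | left => exact ⟨2, by rw [OCode.ofNat]⟩
  | right => exact ⟨3, by rw [OCode.ofNat]⟩
  | oracle => exact ⟨4, by rw [OCode.ofNat]⟩
  | pair a b iha ihb =>
    obtain ⟨m, rfl⟩ := iha
    obtain ⟨n, rfl⟩ := ihb
    refine ⟨4 * Nat.pair m n + 5, ?_⟩
    rw [OCode.ofNat, if_pos (by omega), show 4 * Nat.pair m n / 4 = Nat.pair m n by omega,
      Nat.unpair_pair]
  | comp a b iha ihb =>
    obtain ⟨m, rfl⟩ := iha
    obtain ⟨n, rfl⟩ := ihb
    refine ⟨4 * Nat.pair m n + 1 + 5, ?_⟩
    rw [OCode.ofNat, if_neg (by omega), if_pos (by omega),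
      show (4 * Nat.pair m n + 1) / 4 = Nat.pair m n by omega, Nat.unpair_pair]
  | prec a b iha ihb =>
    obtain ⟨m, rfl⟩ := iha
    obtain ⟨n, rfl⟩ := ihb
    refine ⟨4 * Nat.pair m n + 2 + 5, ?_⟩
    rw [OCode.ofNat, if_neg (by omega), if_neg (by omega), if_pos (by omega),
      show (4 * Nat.pair m n + 2) / 4 = Nat.pair m n by omega, Nat.unpair_pair]
  | rfind a iha =>
    obtain ⟨m, rfl⟩ := iha
    refine ⟨4 * m + 3 + 5, ?_⟩
    rw [OCode.ofNat, if_neg (by omega), if_neg (by omega), if_neg (by omega),
      show (4 * m + 3) / 4 = m by omega]

/-- **Negative answer to Q1.**  There are a computable colouring `c : ℕ → Bool` and a set `X` which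
computes a function that is diagonally noncomputable relative to the halting problem but computes
no infinite set `H` such that `c (x + y)` is the same for all distinct `x, y` in `H`.  Indeed
almost all sets `X` have this property, for one computable colouring `c`. -/
theorem result : ∃ c : ℕ → Bool, Computable c ∧ (∃ X : Set ℕ, Separates c X) ∧
    ∀ᵐ X : ℕ → Bool ∂coin, Separates c {n | X n = true} := by
  have hae : ∀ᵐ X : ℕ → Bool ∂coin, Separates colr {n | X n = true} := by
    filter_upwards [ae_no_solution, ae_avoid fun e => (OCode.ofNat e).eval (char Halting) e]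
      with X h1 h2
    refine ⟨?_, ?_⟩
    · obtain ⟨c, hc⟩ := h2
      refine ⟨_, ?_, hc⟩
      rw [char_eq, cf_set]
      exact turing_code X c
    · rintro H hinf hH ⟨i, hi⟩
      rw [char_eq, char_eq, cf_set] at hH
      have hset : {n | cf H n = true} = H := by
        classical
        ext n
        simp [cf]
      refine h1 (cf H) (computableFrom_of_turing hH) ?_
      rw [hset]
      exact ⟨hinf, i, hi⟩
  refine ⟨colr, primrec_colr.to_comp, ?_, hae⟩
  obtain ⟨X, hX⟩ := hae.exists
  exact ⟨_, hX⟩

end Pool.Agent.Results.MP_bdf372_lc.RandomNoSolution
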